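import Pool.Agent.MP_c1dca2_ag.SEC.S

/-!
# Sections of fundamental groups of open curves (MP_3dd09b_ag): statement-level definitions

`k` is a field (a number field in the application), `K` the function field of a smooth projective
geometrically connected curve `X` over `k`. A curve `U` with compactification `X` is given by the
set `U` of the places of `K` over `k` (i.e. of the closed points of `X`) which belong to it. The
étale fundamental group of `U` is `Gal(M_U / K)`, where `M_U ⊆ K^alg` is the maximal extension
of `K` which is unramified at all places above places in `U`; its quotient `Gal(k^alg / k)` comes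
from `k^alg ⊆ M_U`.
-/

set_option autoImplicit false

noncomputable section

namespace FSC

open SCJ

variable (k K : Type) [Field k] [Field K] [Algebra k K] (U : Set (ValuationSubring K))

/-- The maximal extension of `K` which is unramified over `U`: the fixed field of the inertia
groups of all places of `K^alg` above places in `U`. -/
def MU : IntermediateField K (Om K) where
  carrier := {z | ∀ B, IsPlace k K B → B.comap (algebraMap K (Om K)) ∈ U →
    ∀ σ, IsInert K B σ → σ z = z}
  mul_mem' := by
    intro a b ha hb B hB hU σ hσ
    rw [map_mul, ha B hB hU σ hσ, hb B hB hU σ hσ]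
  add_mem' := by
    intro a b ha hb B hB hU σ hσ
    rw [map_add, ha B hB hU σ hσ, hb B hB hU σ hσ]
  algebraMap_mem' := fun r _ _ _ σ _ => σ.commutes r
  inv_mem' := by
    intro a ha B hB hU σ hσ
    rw [map_inv₀, ha B hB hU σ hσ]

/-- The field `M_U` as a type. -/
def MMU : Type := MU k K U

instance mmuField : Field (MMU k K U) := (inferInstance : Field (MU k K U))

instance mmuAlg : Algebra K (MMU k K U) := (inferInstance : Algebra K (MU k K U))

/-- the inclusion `M_U ⊆ K^alg` -/
def MMU.incl (z : MMU k K U) : Om K := (show MU k K U from z : Om K)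

/-- The fundamental group `π₁(U) = Gal(M_U / K)` (with the Krull topology). -/
def Pi1U : Type := MMU k K U ≃ₐ[K] MMU k K U

instance piuGroup : Group (Pi1U k K U) := (inferInstance : Group (MMU k K U ≃ₐ[K] MMU k K U))

instance piuTop : TopologicalSpace (Pi1U k K U) :=
  (inferInstance : TopologicalSpace (MMU k K U ≃ₐ[K] MMU k K U))

/-- the action of `π₁(U)` on `M_U` -/
def Pi1U.act (γ : Pi1U k K U) (z : MMU k K U) : MMU k K U :=
  (show MMU k K U ≃ₐ[K] MMU k K U from γ) z

/-- The sections of `π₁(U) → Gal(k^alg / k)`: continuous homomorphisms
`s : Gal(k^alg / k) → Gal(M_U / K)` such that `s τ` restricts to `τ` on `k^alg ⊆ M_U`. -/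
structure SectU where
  /-- the homomorphism -/
  toHom : Gk k K →* Pi1U k K U
  cont : Continuous toHom
  split : ∀ (τ : Gk k K) (a : Kb k K) (z : MMU k K U), z.incl = a.incl →
    ((toHom τ).act k K U z).incl = (τ.act k K a).incl

variable {k K U} in
/-- The section `s` is the section of a `k`-rational point of `U`: its image is contained in the
decomposition group of a place of `M_U` above a place of `K` in `U` with residue field `k`. -/
def SectU.Geometric (s : SectU k K U) : Prop :=
  ∃ P : RatPlace k K, P.A ∈ U ∧
    ∃ B : ValuationSubring (MMU k K U), (∀ z : K, algebraMap K (MMU k K U) z ∈ B ↔ z ∈ P.A) ∧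
      ∀ τ z, (s.toHom τ).act k K U z ∈ B ↔ z ∈ B

variable {k K U} in
/-- The set `F(s)`: the elements of the geometric fundamental group `Gal(M_U / K k^alg)` which
commute with `s τ` for all `τ` in the kernel of the cyclotomic character. -/
def SectU.F (s : SectU k K U) : Set (Pi1U k K U) :=
  {γ | (∀ z : MMU k K U, z.incl ∈ kbar k K → γ.act k K U z = z) ∧
    ∀ τ : Gk k K, (∀ (ζ : Kb k K) (n : ℕ), 0 < n → ζ ^ n = 1 → τ.act k K ζ = ζ) →
      s.toHom τ * γ = γ * s.toHom τ}

/-- A section comes from a rational point of `U` if and only if `F(s) = {1}`. -/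
def Criterion : Prop := ∀ s : SectU k K U, s.Geometric ↔ s.F = {1}

end FSC

open Polynomial in
/-- For every curve `U` over `k` (open or not) with a nonconstant map to the curve `y² = F(x)` the
criterion holds, and there are no sections of `π₁(U) → Gal(k^alg / k)`. -/
def FSC.NoSectionU (k : Type) [Field k] (F : k[X]) : Prop :=
  ∀ (K : Type) [Field K] [Algebra k K] (x y : K), Transcendental k x → y ^ 2 = aeval x F →
    ∀ U : Set (ValuationSubring K), FSC.Criterion k K U ∧ IsEmpty (FSC.SectU k K U)
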