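import Pool.Agent.MP_3dd09b_ag.FS.Defs
import Pool.Agent.MP_c1dca2_ag.SEC.G

/-!
# [SC5-U1] a section of `π₁(U)` gives a section of `π₁(X)`

`Mnr ≤ M_U` (fewer conditions in `M_U`). `Mnr` is stable under all `σ : Om K ≃ₐ[K] Om K`: for `z ∈ Mnr`, a place `B` and `ρ`
inert at `B`, `σ⁻¹ ρ σ` is inert at the place `σ⁻¹ B` (`ValuationSubring.comap` by `σ`; a place again), so it fixes `z`, i.e.
`ρ (σ z) = σ z`. So `Mnr` is normal over `K` (`IntermediateField.normal_iff_forall_map_le` or similar; `Om K / K` is normal because it is an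
algebraic closure). Restricting automorphisms of `M_U` over `K` to `Mnr` (`AlgEquiv.restrictNormalHom`, for the tower
`K ⊆ Mnr ⊆ M_U`, algebra structure by `IntermediateField.inclusion`) is a continuous homomorphism
`Gal(M_U / K) → Gal(Mnr / K)` (continuity: `InfiniteGalois.restrictNormalHom_continuous` or directly: the stabiliser of an
element `z` of `Mnr` contains the stabiliser of `z` as an element of `M_U`, use the characterisation of the Krull topology by
the open subgroups `fixingSubgroup` of finite extensions; see also SC2/B3 `open_stab`). Compose with `s`. `split`: for `a ∈ k^alg` the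
element `a` of `Mnr ⊆ M_U` is mapped to `τ a`. The types `Pi1U`, `Pi1`, `MMU`, `MM`, `Kb`, `Gk` are definitions
for the corresponding (sub)types with the same instances; work with `SEC.Sect` (SEC/Defs.lean) or the
underlying types via `show`/`change`.
-/

set_option autoImplicit false

noncomputable section

namespace FSC

open SCJ

/-- restriction to a normal subextension is a continuous homomorphism -/
private theorem u1_restrict {K Ω : Type} [Field K] [Field Ω] [Algebra K Ω]
    (E F : IntermediateField K Ω) (hEF : E ≤ F) [Normal K E] :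
    ∃ r : (F ≃ₐ[K] F) →* (E ≃ₐ[K] E), Continuous r ∧
      ∀ (γ : F ≃ₐ[K] F) (z : E), (r γ z : Ω) = γ ⟨(z : Ω), hEF z.2⟩ := by
  let _ : Algebra E F := (IntermediateField.inclusion hEF).toRingHom.toAlgebra
  have _ : IsScalarTower K E F := IsScalarTower.of_algebraMap_eq fun x => rfl
  have key : ∀ (γ : F ≃ₐ[K] F) (z : E),
      (AlgEquiv.restrictNormalHom E γ z : Ω) = γ ⟨(z : Ω), hEF z.2⟩ := by
    intro γ z
    have h := AlgEquiv.restrictNormal_commutes γ E z
    exact congrArg (fun w : F => (w : Ω)) h
  refine ⟨AlgEquiv.restrictNormalHom E, ?_, key⟩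
  refine continuous_of_continuousAt_one _ ?_
  unfold ContinuousAt
  rw [map_one]
  intro V hV
  rw [krullTopology_mem_nhds_one_iff] at hV
  obtain ⟨L, hL, hLV⟩ := hV
  rw [Filter.mem_map, krullTopology_mem_nhds_one_iff]
  refine ⟨L.map (IntermediateField.inclusion hEF),
    LinearEquiv.finiteDimensional (IntermediateField.equivMap L (IntermediateField.inclusion hEF)).toLinearEquiv, ?_⟩
  intro σ hσ
  apply hLV
  rw [SetLike.mem_coe, IntermediateField.mem_fixingSubgroup_iff] at hσ ⊢
  intro x hx
  apply Subtype.ext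
  rw [key]
  have h1 := hσ (IntermediateField.inclusion hEF x) ⟨x, hx, rfl⟩
  exact congrArg (fun w : F => (w : Ω)) h1

section
variable {k K : Type} [Field k] [Field K] [Algebra k K]

private theorem u1_alg (σ : Om K ≃ₐ[K] Om K) (a : k) :
    σ (algebraMap k (Om K) a) = algebraMap k (Om K) a := by
  have h : algebraMap k (Om K) a = algebraMap K (Om K) (algebraMap k K a) :=
    IsScalarTower.algebraMap_apply k K (AlgebraicClosure K) a
  rw [h]
  exact σ.commutes _

private theorem u1_stable (σ : Om K ≃ₐ[K] Om K) {z : Om K} (hz : z ∈ Mnr k K) :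
    σ z ∈ Mnr k K := by
  intro B hB ρ hρ
  have hmem : ∀ x, x ∈ B.comap (σ : Om K →+* Om K) ↔ σ x ∈ B := fun x => Iff.rfl
  have hB' : IsPlace k K (B.comap (σ : Om K →+* Om K)) := by
    refine ⟨fun a => ?_, fun h => hB.2 ?_⟩
    · rw [hmem, u1_alg]
      exact hB.1 a
    · rw [eq_top_iff]
      intro x _
      have h1 : σ.symm x ∈ B.comap (σ : Om K →+* Om K) := by
        rw [h]
        exact ValuationSubring.mem_top _
      rw [hmem, AlgEquiv.apply_symm_apply] at h1
      exact h1
  have hρ' : IsInert K (B.comap (σ : Om K →+* Om K)) ((σ.trans ρ).trans σ.symm) := by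
    refine ⟨fun x => ?_, fun x hx => ?_⟩
    · rw [hmem, hmem]
      change σ (σ.symm (ρ (σ x))) ∈ B ↔ _
      rw [AlgEquiv.apply_symm_apply]
      exact hρ.1 _
    · rw [hmem] at hx
      have h1 := hρ.2 _ hx
      rw [ValuationSubring.mem_nonunits_iff_or] at h1 ⊢
      have h2 : σ (((σ.trans ρ).trans σ.symm) x - x) = ρ (σ x) - σ x := by
        rw [map_sub]
        change σ (σ.symm (ρ (σ x))) - _ = _
        rw [AlgEquiv.apply_symm_apply]
      rcases h1 with h1 | h1
      · left
        rw [h1] at h2
        exact (map_eq_zero_iff σ σ.injective).1 h2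
      · right
        rw [hmem, map_inv₀, h2]
        exact h1
  have h3 := hz _ hB' _ hρ'
  have h4 := congrArg σ h3
  change σ (σ.symm (ρ (σ z))) = σ z at h4
  rwa [AlgEquiv.apply_symm_apply] at h4

private theorem u1_normal : Normal K (Mnr k K) := by
  have : Normal K (Om K) := (inferInstance : Normal K (AlgebraicClosure K))
  rw [IntermediateField.normal_iff_forall_map_le']
  intro σ x hx
  obtain ⟨y, hy, rfl⟩ := hx
  exact u1_stable σ hy

end

theorem sect_of_sectU {k K : Type} [Field k] [CharZero k] [Field K] [Algebra k K]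
    (U : Set (ValuationSubring K)) (s : SectU k K U) : Nonempty (Sect k K) := by
  have := u1_normal (k := k) (K := K)
  have hle : Mnr k K ≤ MU k K U := fun z hz B hB _ σ hσ => hz B hB σ hσ
  obtain ⟨r, hr, hrz⟩ := u1_restrict (Mnr k K) (MU k K U) hle
  let r' : Pi1U k K U →* Pi1 k K := r
  have hr' : Continuous r' := hr
  exact ⟨{ toHom := r'.comp s.toHom
           cont := hr'.comp s.cont
           split := fun τ a z hz => (hrz _ z).trans (s.split τ a ⟨_, hle z.2⟩ hz) }⟩

theorem noSectionU {k : Type} [Field k] [CharZero k] (F : Polynomial k) (h : NoSection k F) :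
    FSC.NoSectionU k F := by
  intro K _ _ x y hx hxy U
  obtain ⟨-, h1, h2⟩ := h K x y hx hxy
  have h3 : IsEmpty (SectU k K U) := ⟨fun s => by
    obtain ⟨t⟩ := sect_of_sectU U s
    exact h1.elim t⟩
  exact ⟨fun s => h3.elim s, h3⟩

end FSC
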